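import Pool.Agent.W717.UR.Stm

set_option autoImplicit false

namespace Pool.Agent.W557.UR

open Pool.Agent.W717.UR

/-- shifting a finite sum of a function supported in `[0, h)` -/
lemma sum_shift {h : ℕ} {J : Finset ℤ} {t : ℤ} (hJ : ∀ i : ℕ, i < h → (i : ℤ) + t ∈ J)
    {f : ℤ → ℝ} (hf : ∀ i : ℤ, (i < 0 ∨ (h : ℤ) ≤ i) → f i = 0) :
    ∑ n ∈ J, f (n - t) = ∑ i ∈ Finset.range h, f i := by
  classical
  have h1 : ∑ i ∈ Finset.range h, f i =
      ∑ n ∈ (Finset.range h).image (fun i : ℕ => (i : ℤ) + t), f (n - t) := by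
    rw [Finset.sum_image]
    · refine Finset.sum_congr rfl fun i _ => ?_
      congr 1
      ring
    · intro a _ c _ hac
      have : (a : ℤ) + t = c + t := hac
      omega
  rw [h1]
  symm
  refine Finset.sum_subset ?_ ?_
  · intro n hn
    obtain ⟨i, hi, rfl⟩ := Finset.mem_image.1 hn
    exact hJ i (Finset.mem_range.1 hi)
  · intro n _ hn
    by_contra hne
    have h2 : ¬ (n - t < 0 ∨ (h : ℤ) ≤ n - t) := fun h3 => hne (hf _ h3)
    push Not at h2
    refine hn (Finset.mem_image.2 ⟨(n - t).toNat, Finset.mem_range.2 ?_, ?_⟩)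
    · omega
    · show (((n - t).toNat : ℕ) : ℤ) + t = n
      omega

theorem sma : S_SMA := by
  classical
  intro h H b ε M V T α hb hsupp hε hM hcor hα hV
  set c : ℤ → ℝ := fun r => ∑ i ∈ Finset.range h, (b i : ℝ) * (b (i + r) : ℝ) with hc
  have hV0 : 0 ≤ V := le_trans (Finset.sum_nonneg fun _ _ => abs_nonneg _) hV
  have hb' : ∀ i, |(b i : ℝ)| ≤ 1 := fun i => by exact_mod_cast hb i
  have hc1 : ∀ r, |c r| ≤ h := by
    intro r
    refine (Finset.abs_sum_le_sum_abs _ _).trans ?_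
    have h1 : ∀ i ∈ Finset.range h, |(b i : ℝ) * (b (i + r) : ℝ)| ≤ 1 := by
      intro i _
      rw [abs_mul]
      exact mul_le_one₀ (hb' _) (abs_nonneg _) (hb' _)
    refine (Finset.sum_le_sum h1).trans ?_
    simp
  have hc2 : ∀ r : ℤ, (H : ℤ) ≤ |r| → |c r| ≤ ε * h := by
    intro r hr
    have h1 := hcor r hr
    rw [hc]
    push_cast at h1
    exact h1
  set J : Finset ℤ := (Finset.range h).image (fun i : ℕ => (i : ℤ)) ∪
    T.biUnion (fun t => (Finset.range h).image (fun i : ℕ => (i : ℤ) + t)) with hJ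
  have hJ1 : (Finset.range h).image (fun i : ℕ => (i : ℤ)) ⊆ J := Finset.subset_union_left
  have hJ2 : ∀ t ∈ T, ∀ i : ℕ, i < h → (i : ℤ) + t ∈ J := by
    intro t ht i hi
    refine Finset.mem_union_right _ (Finset.mem_biUnion.2 ⟨t, ht, ?_⟩)
    exact Finset.mem_image.2 ⟨i, Finset.mem_range.2 hi, rfl⟩
  have e1 : ∑ n ∈ Finset.range h, (∑ t ∈ T, α t * (b (n - t) : ℝ)) ^ 2 =
      ∑ n ∈ (Finset.range h).image (fun i : ℕ => (i : ℤ)),
        (∑ t ∈ T, α t * (b (n - t) : ℝ)) ^ 2 := by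
    rw [Finset.sum_image]
    intro a _ d _ had
    have had' : (a : ℤ) = d := had
    exact_mod_cast had'
  have e2 : ∑ n ∈ (Finset.range h).image (fun i : ℕ => (i : ℤ)),
        (∑ t ∈ T, α t * (b (n - t) : ℝ)) ^ 2 ≤ ∑ n ∈ J, (∑ t ∈ T, α t * (b (n - t) : ℝ)) ^ 2 :=
    Finset.sum_le_sum_of_subset_of_nonneg hJ1 fun _ _ _ => sq_nonneg _
  have e3 : ∑ n ∈ J, (∑ t ∈ T, α t * (b (n - t) : ℝ)) ^ 2 =
      ∑ t ∈ T, ∑ t' ∈ T, α t * α t' * c (t - t') := by
    have h1 : ∀ n ∈ J, (∑ t ∈ T, α t * (b (n - t) : ℝ)) ^ 2 =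
        ∑ t ∈ T, ∑ t' ∈ T, α t * α t' * ((b (n - t) : ℝ) * (b (n - t') : ℝ)) := by
      intro n _
      rw [sq, Finset.sum_mul_sum]
      refine Finset.sum_congr rfl fun t _ => Finset.sum_congr rfl fun t' _ => ?_
      ring
    rw [Finset.sum_congr rfl h1, Finset.sum_comm]
    refine Finset.sum_congr rfl fun t ht => ?_
    rw [Finset.sum_comm]
    refine Finset.sum_congr rfl fun t' _ => ?_
    rw [← Finset.mul_sum]
    congr 1
    have h2 := sum_shift (J := J) (t := t) (hJ2 t ht)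
      (f := fun i => (b i : ℝ) * (b (i + (t - t')) : ℝ)) (by
        intro i hi
        simp [hsupp i hi])
    rw [hc]
    simp only at h2 ⊢
    rw [← h2]
    refine Finset.sum_congr rfl fun n _ => ?_
    have h3 : n - t + (t - t') = n - t' := by ring
    rw [h3]
  have e4 : ∀ t ∈ T, ∀ t' ∈ T, α t * α t' * c (t - t') ≤
      |α t| * |α t'| * (ε * h) + (if |t - t'| < (H : ℤ) then |α t| * (M * h) else 0) := by
    intro t _ t' ht'
    have h1 : α t * α t' * c (t - t') ≤ |α t| * |α t'| * |c (t - t')| := by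
      rw [← abs_mul, ← abs_mul]
      exact le_abs_self _
    refine h1.trans ?_
    have h0 : 0 ≤ |α t| * |α t'| := by positivity
    split_ifs with hlt
    · have h2 : |α t| * |α t'| * |c (t - t')| ≤ |α t| * M * h :=
        mul_le_mul (mul_le_mul_of_nonneg_left (hα t' ht') (abs_nonneg _)) (hc1 _)
          (abs_nonneg _) (by positivity)
      have h3 : 0 ≤ |α t| * |α t'| * (ε * h) := by positivity
      nlinarith
    · rw [add_zero]
      exact mul_le_mul_of_nonneg_left (hc2 _ (not_lt.1 hlt)) h0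
  have e5 : ∀ t ∈ T, (∑ t' ∈ T, if |t - t'| < (H : ℤ) then |α t| * (M * h) else 0) ≤
      2 * H * (|α t| * (M * h)) := by
    intro t _
    rw [← Finset.sum_filter, Finset.sum_const, nsmul_eq_mul]
    refine mul_le_mul_of_nonneg_right ?_ (by positivity)
    have h1 : (T.filter fun t' => |t - t'| < (H : ℤ)) ⊆ Finset.Ioo (t - H) (t + H) := by
      intro t' ht'
      have h2 := (Finset.mem_filter.1 ht').2
      rw [abs_lt] at h2
      rw [Finset.mem_Ioo]
      omega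
    have h2 := Finset.card_le_card h1
    rw [Int.card_Ioo] at h2
    have h3 : (T.filter fun t' => |t - t'| < (H : ℤ)).card ≤ 2 * H := by omega
    exact_mod_cast h3
  have e6 : ∑ t ∈ T, ∑ t' ∈ T, α t * α t' * c (t - t') ≤
      ∑ t ∈ T, (∑ t' ∈ T, |α t| * |α t'| * (ε * h) + 2 * H * (|α t| * (M * h))) := by
    refine Finset.sum_le_sum fun t ht => ?_
    refine (Finset.sum_le_sum (e4 t ht)).trans ?_
    rw [Finset.sum_add_distrib]
    exact add_le_add le_rfl (e5 t ht)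
  have e7 : ∑ t ∈ T, (∑ t' ∈ T, |α t| * |α t'| * (ε * h) + 2 * H * (|α t| * (M * h))) =
      (∑ t ∈ T, |α t|) ^ 2 * (ε * h) + 2 * H * ((∑ t ∈ T, |α t|) * (M * h)) := by
    rw [Finset.sum_add_distrib]
    congr 1
    · rw [sq, Finset.sum_mul_sum, Finset.sum_mul]
      refine Finset.sum_congr rfl fun t _ => ?_
      rw [Finset.sum_mul]
    · rw [← Finset.mul_sum, ← Finset.sum_mul]
  have e8 : (∑ t ∈ T, |α t|) ^ 2 ≤ V ^ 2 :=
    pow_le_pow_left₀ (Finset.sum_nonneg fun _ _ => abs_nonneg _) hV 2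
  have hS0 : 0 ≤ ∑ t ∈ T, |α t| := Finset.sum_nonneg fun _ _ => abs_nonneg _
  rw [e1]
  refine e2.trans ?_
  rw [e3]
  refine e6.trans ?_
  rw [e7]
  have h1 : (∑ t ∈ T, |α t|) ^ 2 * (ε * h) ≤ V ^ 2 * (ε * h) :=
    mul_le_mul_of_nonneg_right e8 (by positivity)
  have h2 : 2 * (H : ℝ) * ((∑ t ∈ T, |α t|) * (M * h)) ≤ 2 * H * (V * (M * h)) :=
    mul_le_mul_of_nonneg_left (mul_le_mul_of_nonneg_right hV (by positivity)) (by positivity)
  nlinarith

end Pool.Agent.W557.UR
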